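import Mathlib

namespace Pool.Agent.Results.MP_d057eb_an.Ratio

open MeasureTheory Set Filter Topology Metric Real

/-- negative part of `log |z - w|`, equal to `+∞` on the diagonal. -/
noncomputable def negLog (p : ℂ × ℂ) : ENNReal :=
  if p.1 = p.2 then ⊤ else ENNReal.ofReal (-log ‖p.1 - p.2‖)

/-- energy `∬ log |z - w|` in `[-∞,∞]`: positive part minus negative part. -/
noncomputable def energy (μ : Measure ℂ) : EReal :=
  ((∫⁻ p, ENNReal.ofReal (log ‖p.1 - p.2‖) ∂μ.prod μ : ENNReal) : EReal) -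
    ((∫⁻ p, negLog p ∂μ.prod μ : ENNReal) : EReal)

/-- logarithmic capacity `exp (sup energy)`. -/
noncomputable def cap (E : Set ℂ) : ℝ :=
  (EReal.exp (⨆ (μ : Measure ℂ) (_ : IsProbabilityMeasure μ) (_ : μ Eᶜ = 0), energy μ)).toReal

/-- the `n`-th diameter. -/
noncomputable def diam' (n : ℕ) (E : Set ℂ) : ℝ :=
  sSup {x | ∃ w : Fin n → ℂ, (∀ j, w j ∈ E) ∧
    x = ∏ j, ∏ k ∈ Finset.Ioi j, ‖w j - w k‖ ^ (2 / ((n : ℝ) * (n - 1)))}

/-- closed `ε`-neighbourhood. -/
def nbhd (K : Set ℂ) (ε : ℝ) : Set ℂ := {z | infDist z K ≤ ε}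

lemma mlog : Measurable fun p : ℂ × ℂ => log ‖p.1 - p.2‖ := by fun_prop

lemma mneg : Measurable negLog := by
  unfold negLog
  exact Measurable.ite (measurableSet_eq_fun measurable_fst measurable_snd) measurable_const
    (by fun_prop)

lemma energy_eq {μ : Measure ℂ} [IsProbabilityMeasure μ] {E : Set ℂ} (hE : μ Eᶜ = 0) {M : ℝ}
    (hM : ∀ a ∈ E, ∀ b ∈ E, log ‖a - b‖ ≤ M) (hn : ∫⁻ p, negLog p ∂μ.prod μ ≠ ⊤) :
    (∀ᵐ p ∂μ.prod μ, p.1 ≠ p.2) ∧ Integrable (fun p : ℂ × ℂ => log ‖p.1 - p.2‖) (μ.prod μ) ∧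
      energy μ = ((∫ p, log ‖p.1 - p.2‖ ∂μ.prod μ : ℝ) : EReal) := by
  have h1 : ∀ᵐ p ∂μ.prod μ, p.1 ≠ p.2 := by
    filter_upwards [ae_lt_top mneg hn] with p hp h
    simp [negLog, h] at hp
  have hE' : ∀ᵐ a ∂μ, a ∈ E := hE
  have h2 : ∀ᵐ p ∂μ.prod μ, log ‖p.1 - p.2‖ ≤ M := by
    filter_upwards [(measurePreserving_fst (μ := μ) (ν := μ)).quasiMeasurePreserving.ae hE',
      (measurePreserving_snd (μ := μ) (ν := μ)).quasiMeasurePreserving.ae hE'] with p a b
    exact hM _ a _ b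
  have h3 : ∫⁻ p, negLog p ∂μ.prod μ = ∫⁻ p, ENNReal.ofReal (-log ‖p.1 - p.2‖) ∂μ.prod μ := by
    refine lintegral_congr_ae ?_
    filter_upwards [h1] with p hp
    simp [negLog, hp]
  have h4 : ∫⁻ p, ENNReal.ofReal (log ‖p.1 - p.2‖) ∂μ.prod μ ≠ ⊤ := by
    refine ne_top_of_le_ne_top (b := ∫⁻ _, ENNReal.ofReal M ∂μ.prod μ) (by simp)
      (lintegral_mono_ae ?_)
    filter_upwards [h2] with p hp using ENNReal.ofReal_le_ofReal hp
  have h5 : Integrable (fun p : ℂ × ℂ => log ‖p.1 - p.2‖) (μ.prod μ) := by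
    refine ⟨mlog.aestronglyMeasurable, ?_⟩
    refine lt_of_le_of_lt (lintegral_mono (g := fun p => ENNReal.ofReal (log ‖p.1 - p.2‖) +
      ENNReal.ofReal (-log ‖p.1 - p.2‖)) fun p => ?_) ?_
    · rw [Real.enorm_eq_ofReal_abs]
      rcases abs_cases (log ‖p.1 - p.2‖) with h | h <;> rw [h.1] <;> simp
    · rw [lintegral_add_left mlog.ennreal_ofReal, ← h3]
      exact ENNReal.add_lt_top.2 ⟨h4.lt_top, hn.lt_top⟩
  refine ⟨h1, h5, ?_⟩
  rw [integral_eq_lintegral_pos_part_sub_lintegral_neg_part h5, energy, ← h3, EReal.coe_sub,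
    EReal.coe_ennreal_toReal h4, EReal.coe_ennreal_toReal hn]

noncomputable def S {n : ℕ} (w : Fin n → ℂ) : ℝ := ∑ j, ∑ k ∈ Finset.Ioi j, log ‖w j - w k‖

lemma card2 (n : ℕ) (c : ℝ) : ∑ j : Fin n, ∑ _k ∈ Finset.Ioi j, c = n * (n - 1) / 2 * c := by
  have := Finset.sum_sum_Ioi_add_eq_sum_sum_off_diag (fun _ _ : Fin n => c)
  simp only [Finset.sum_add_distrib] at this
  rcases n with _ | n
  · simp
  · simp only [Finset.sum_const (s := {_}ᶜ), Finset.card_compl, Fintype.card_fin,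
      Finset.card_singleton, Nat.add_sub_cancel, Finset.sum_const, Finset.card_univ,
      nsmul_eq_mul] at this
    simp only [Finset.sum_const, nsmul_eq_mul]
    push_cast at this ⊢
    linarith

lemma lower {μ : Measure ℂ} [IsProbabilityMeasure μ] {E : Set ℂ} (hE : μ Eᶜ = 0)
    (h1 : ∀ᵐ p ∂μ.prod μ, p.1 ≠ p.2)
    (h2 : Integrable (fun p : ℂ × ℂ => log ‖p.1 - p.2‖) (μ.prod μ)) (n : ℕ) :
    ∃ w : Fin n → ℂ, (∀ j, w j ∈ E) ∧ (∀ j k, j ≠ k → w j ≠ w k) ∧
      n * (n - 1) / 2 * ∫ p, log ‖p.1 - p.2‖ ∂μ.prod μ ≤ S w := by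
  set P := Measure.pi fun _ : Fin n => μ
  have hp : ∀ j k : Fin n, j ≠ k → MeasurePreserving (fun w : Fin n → ℂ => (w j, w k)) P
      (μ.prod μ) := by
    intro j k h
    refine ⟨by fun_prop, ?_⟩
    have := ((ProbabilityTheory.iIndepFun_pi (μ := fun _ : Fin n => μ) (X := fun _ => id)
      fun _ => aemeasurable_id).indepFun h).map_prod_eq_prod_map_map
      (measurable_pi_apply j).aemeasurable (measurable_pi_apply k).aemeasurable
    refine this.trans ?_
    change (Measure.map (Function.eval j) P).prod (Measure.map (Function.eval k) P) = _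
    rw [ (measurePreserving_eval _ j).map_eq, (measurePreserving_eval _ k).map_eq]
  have hE' : ∀ᵐ a ∂μ, a ∈ E := hE
  have hae : ∀ᵐ w ∂P, (∀ j, w j ∈ E) ∧ ∀ j k, j ≠ k → w j ≠ w k := by
    refine (ae_all_iff.2 fun j => ?_).and (ae_all_iff.2 fun j => ae_all_iff.2 fun k => ?_)
    · exact (measurePreserving_eval (fun _ : Fin n => μ) j).quasiMeasurePreserving.ae hE'
    · by_cases h : j = k
      · simp [h]
      · filter_upwards [(hp j k h).quasiMeasurePreserving.ae h1] with w hw _ using hw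
  have hi : ∀ j k : Fin n, k ∈ Finset.Ioi j → Integrable (fun w : Fin n → ℂ => log ‖w j - w k‖) P :=
    fun j k h => (hp j k (Finset.mem_Ioi.1 h).ne).integrable_comp_of_integrable h2
  have hS : Integrable (S (n := n)) P :=
    integrable_finset_sum _ fun j _ => integrable_finset_sum _ (hi j)
  obtain ⟨w, hw, hle⟩ := exists_notMem_null_integral_le hS hae
  have hw' := not_not.1 hw
  refine ⟨w, hw'.1, hw'.2, le_trans (le_of_eq ?_) hle⟩
  unfold S
  rw [integral_finset_sum _ fun j _ => integrable_finset_sum _ (hi j), ← card2]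
  refine Finset.sum_congr rfl fun j _ => ?_
  rw [integral_finset_sum _ (hi j)]
  refine Finset.sum_congr rfl fun k hk => ?_
  rw [← (hp j k (Finset.mem_Ioi.1 hk).ne).map_eq, integral_map (by fun_prop)
    mlog.aestronglyMeasurable]

lemma circ (c : ℂ) {r : ℝ} (hr : 0 < r) : ∃ ν : Measure ℂ, IsProbabilityMeasure ν ∧
    (∀ᵐ z ∂ν, ‖z - c‖ ≤ r) ∧ (∀ a, ∀ᵐ z ∂ν, z ≠ a) ∧
    ∀ a, Integrable (fun z => log ‖z - a‖) ν ∧
      ∫ z, log ‖z - a‖ ∂ν = log r + log⁺ (r⁻¹ * ‖c - a‖) := by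
  have hm : Measurable (circleMap c r) := (continuous_circleMap c r).measurable
  refine ⟨ENNReal.ofReal (2 * π)⁻¹ • (volume.restrict (Ioc 0 (2 * π))).map (circleMap c r),
    ⟨?_⟩, ?_, fun a => ?_, fun a => ⟨?_, ?_⟩⟩
  · rw [Measure.smul_apply, Measure.map_apply hm MeasurableSet.univ]
    simp only [preimage_univ, Measure.restrict_apply_univ, Real.volume_Ioc, smul_eq_mul]
    rw [← ENNReal.ofReal_mul (by positivity), sub_zero, inv_mul_cancel₀ (by positivity)]
    simp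
  · refine Measure.ae_smul_measure ((ae_map_iff hm.aemeasurable
      (measurableSet_le (by fun_prop) measurable_const)).2 (ae_of_all _ fun t => ?_)) _
    simp [abs_of_pos hr]
  · refine Measure.ae_smul_measure ((ae_map_iff hm.aemeasurable
      (measurableSet_singleton a).compl).2 (ae_restrict_of_ae ?_)) _
    exact ((countable_singleton a).preimage_circleMap c hr.ne').ae_notMem _
  · refine Integrable.smul_measure ?_ (by simp)
    rw [integrable_map_measure (Measurable.aestronglyMeasurable (by fun_prop)) hm.aemeasurable]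
    exact (intervalIntegrable_iff_integrableOn_Ioc_of_le (by positivity)).1
      (circleIntegrable_log_norm_sub_const (a := a) (c := c) r)
  · rw [← circleAverage_log_norm_sub_const_eq_log_radius_add_posLog hr.ne', circleAverage,
      integral_smul_measure, integral_map hm.aemeasurable
      (Measurable.aestronglyMeasurable (by fun_prop)),
      intervalIntegral.integral_of_le (by positivity), ENNReal.toReal_ofReal (by positivity)]

lemma smear {E : Set ℂ} (hEm : MeasurableSet E) {M : ℝ} (hM0 : 0 ≤ M)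
    (hM : ∀ a ∈ E, ∀ b ∈ E, log ‖a - b‖ ≤ M) {n : ℕ} (hn : 0 < n) (c : Fin n → ℂ)
    (hc : ∀ j k, j ≠ k → c j ≠ c k) {r : ℝ} (hr : 0 < r) (hE : ∀ j z, ‖z - c j‖ ≤ r → z ∈ E) :
    ∃ μ : Measure ℂ, IsProbabilityMeasure μ ∧ μ Eᶜ = 0 ∧
      (((2 * S c + n * log r) / n ^ 2 : ℝ) : EReal) ≤ energy μ := by
  choose ν hν h1 h2 h3 using fun j => circ (c j) hr
  have hn' : (0 : ℝ) < n := by exact_mod_cast hn
  set μ : Measure ℂ := ENNReal.ofReal (n : ℝ)⁻¹ • ∑ j, ν j with hμ
  have hp : IsProbabilityMeasure μ := ⟨by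
    simp only [hμ, Measure.smul_apply, Measure.coe_finset_sum, Finset.sum_apply, measure_univ,
      Finset.sum_const, Finset.card_univ, Fintype.card_fin, smul_eq_mul, nsmul_eq_mul, mul_one]
    rw [← ENNReal.ofReal_natCast n, ← ENNReal.ofReal_mul (by positivity),
      inv_mul_cancel₀ hn'.ne']
    simp⟩
  have hae : ∀ p : ℂ → Prop, (∀ j, ∀ᵐ z ∂ν j, p z) → ∀ᵐ z ∂μ, p z := fun p h =>
    Measure.ae_smul_measure (by simpa [ae_iff] using h) _
  have hint : ∀ f : ℂ → ℝ, (∀ j, Integrable f (ν j)) →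
      Integrable f μ ∧ ∫ z, f z ∂μ = (n : ℝ)⁻¹ * ∑ j, ∫ z, f z ∂ν j := fun f h =>
    ⟨(integrable_finset_sum_measure.2 fun j _ => h j).smul_measure (by simp), by
      rw [hμ, integral_smul_measure, integral_finset_sum_measure fun j _ => h j,
        ENNReal.toReal_ofReal (by positivity), smul_eq_mul]⟩
  have hνE : ∀ j, ∀ᵐ z ∂ν j, z ∈ E := fun j => by
    filter_upwards [h1 j] with z hz using hE j z hz
  have hμE : ∀ᵐ z ∂μ, z ∈ E := hae _ hνE
  have hU : ∀ a, Integrable (fun z => log ‖a - z‖) μ ∧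
      ∫ z, log ‖a - z‖ ∂μ = (n : ℝ)⁻¹ * ∑ k, (log r + log⁺ (r⁻¹ * ‖c k - a‖)) := fun a => by
    simp only [norm_sub_rev a]
    have := hint _ fun j => (h3 j a).1
    simp only [fun j => (h3 j a).2] at this
    exact this
  have hneg : ∫⁻ p, negLog p ∂μ.prod μ ≠ ⊤ := by
    rw [lintegral_prod _ mneg.aemeasurable]
    refine ne_top_of_le_ne_top (b := ∫⁻ _, ENNReal.ofReal (M - log r) ∂μ) (by simp)
      (lintegral_mono_ae ?_)
    filter_upwards [hμE] with a ha
    calc _ ≤ ∫⁻ z, ENNReal.ofReal (M - log ‖a - z‖) ∂μ := by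
          refine lintegral_mono_ae ?_
          filter_upwards [hae _ fun j => h2 j a] with z hz
          simp only [negLog, if_neg hz.symm]
          exact ENNReal.ofReal_le_ofReal (by linarith)
      _ = ENNReal.ofReal (∫ z, (M - log ‖a - z‖) ∂μ) := by
          refine (ofReal_integral_eq_lintegral_ofReal ((integrable_const M).sub (hU a).1) ?_).symm
          filter_upwards [hμE] with z hz using sub_nonneg.2 (hM a ha z hz)
      _ ≤ _ := by
          refine ENNReal.ofReal_le_ofReal ?_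
          rw [integral_sub (integrable_const M) (hU a).1, (hU a).2]
          have : ∑ _k : Fin n, log r ≤ ∑ k, (log r + log⁺ (r⁻¹ * ‖c k - a‖)) :=
            Finset.sum_le_sum fun k _ => le_add_of_nonneg_right posLog_nonneg
          simp only [Finset.sum_const, Finset.card_univ, Fintype.card_fin, nsmul_eq_mul] at this
          have h := (le_inv_mul_iff₀ hn').2 this
          simp only [integral_const, probReal_univ, one_smul]
          linarith
  obtain ⟨-, e2, e3⟩ := energy_eq hμE hM hneg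
  refine ⟨μ, hp, hμE, ?_⟩
  rw [e3, EReal.coe_le_coe_iff, integral_prod _ e2]
  simp only [fun a => (hU a).2]
  have hu : ∀ j k, Integrable (fun a => log r + log⁺ (r⁻¹ * ‖c k - a‖)) (ν j) := fun j k => by
    refine (integrable_const _).add (Integrable.of_bound (Measurable.aestronglyMeasurable
      (by unfold posLog; fun_prop)) (log⁺ (r⁻¹ * (‖c k - c j‖ + r))) ?_)
    filter_upwards [h1 j] with z hz
    rw [Real.norm_eq_abs, abs_of_nonneg posLog_nonneg]
    refine posLog_le_posLog (by positivity) (mul_le_mul_of_nonneg_left ?_ (by positivity))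
    rw [norm_sub_rev] at hz
    exact (norm_sub_le_norm_sub_add_norm_sub _ (c j) _).trans (by linarith)
  have hl : ∀ x : ℝ, 0 < x → log x ≤ log r + log⁺ (r⁻¹ * x) := fun x hx => by
    have : log (r⁻¹ * x) ≤ log⁺ (r⁻¹ * x) := le_max_right _ _
    rw [log_mul (by positivity) hx.ne', log_inv] at this
    linarith
  have k1 : ∀ j, log r + ∑ k ∈ {j}ᶜ, log ‖c k - c j‖ ≤
      ∫ a, ∑ k, (log r + log⁺ (r⁻¹ * ‖c k - a‖)) ∂ν j := fun j => by
    rw [integral_finset_sum _ fun k _ => hu j k, ← Finset.sum_add_sum_compl {j},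
      Finset.sum_singleton]
    refine add_le_add ?_ (Finset.sum_le_sum fun k hk => ?_)
    · calc log r = ∫ _, log r ∂ν j := by simp
        _ ≤ _ := integral_mono (integrable_const _) (hu j j)
            fun a => le_add_of_nonneg_right posLog_nonneg
    · have hkj : k ≠ j := by simpa using hk
      calc _ ≤ ∫ z, log ‖z - c k‖ ∂ν j := by
            rw [(h3 j (c k)).2, norm_sub_rev]
            exact hl _ (norm_pos_iff.2 (sub_ne_zero.2 (hc _ _ hkj.symm)))
        _ ≤ _ := by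
            refine integral_mono_ae (h3 j _).1 (hu j k) ?_
            filter_upwards [h2 j (c k)] with z hz
            rw [norm_sub_rev]
            exact hl _ (norm_pos_iff.2 (sub_ne_zero.2 hz.symm))
  rw [integral_const_mul, (hint _ fun j => integrable_finset_sum _ fun k _ => hu j k).2]
  have k2 := Finset.sum_le_sum fun j (_ : j ∈ Finset.univ) => k1 j
  rw [Finset.sum_add_distrib,
    ← Finset.sum_sum_Ioi_add_eq_sum_sum_off_diag fun k j => log ‖c k - c j‖] at k2
  simp only [Finset.sum_add_distrib (s := Finset.Ioi _), Finset.sum_add_distrib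
    (s := Finset.univ) (f := fun j => ∑ k ∈ Finset.Ioi j, log ‖c k - c j‖), Finset.sum_const,
    Finset.card_univ, Fintype.card_fin, nsmul_eq_mul] at k2
  have k3 : ∑ j, ∑ k ∈ Finset.Ioi j, log ‖c k - c j‖ = S c := by
    simp only [S, norm_sub_rev]
  rw [k3, ← S] at k2
  rw [← mul_assoc, ← mul_inv, le_inv_mul_iff₀ (by positivity)]
  refine le_trans (le_of_eq ?_) k2
  field_simp
  ring

lemma bern {n : ℕ} (c w : Fin n → ℂ) (hw : ∀ j k, j ≠ k → w j ≠ w k) {t : ℝ} (ht : 0 < t)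
    (ht1 : t ≤ 1) : ∃ l : ℂ, ‖l‖ = t ∧
      (∀ j k, j ≠ k → c j + l * (w j - c j) ≠ c k + l * (w k - c k)) ∧
      S w + n * (n - 1) / 2 * log t ≤ S fun j => c j + l * (w j - c j) := by
  obtain ⟨s, hs, hmax⟩ := Complex.exists_mem_frontier_isMaxOn_norm
    (f := fun s : ℂ => ∏ j, ∏ k ∈ Finset.Ioi j, ((c j - c k) * s + (w j - c j - (w k - c k))))
    (isBounded_ball (x := (0 : ℂ)) (r := t⁻¹)) (nonempty_ball.2 (by positivity))
    (Differentiable.diffContOnCl (by fun_prop))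
  rw [frontier_ball _ (by positivity), mem_sphere_zero_iff_norm] at hs
  rw [closure_ball _ (by positivity)] at hmax
  have h1 := hmax (show (1 : ℂ) ∈ closedBall 0 t⁻¹ by simpa using one_le_inv_iff₀.2 ⟨ht, ht1⟩)
  have hs0 : s ≠ 0 := by rintro rfl; simp at hs; exact ht.ne' hs.symm
  have e1 : ∀ j k, (c j - c k) * 1 + (w j - c j - (w k - c k)) = w j - w k := fun j k => by ring
  have e2 : ∀ j k, ‖(c j - c k) * s + (w j - c j - (w k - c k))‖ =
      t⁻¹ * ‖c j + s⁻¹ * (w j - c j) - (c k + s⁻¹ * (w k - c k))‖ := fun j k => by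
    rw [← hs, ← norm_mul]; congr 1; field_simp; ring
  simp only [mem_setOf_eq, Function.comp, norm_prod, e1, e2] at h1
  have p1 : ∀ j, ∀ k ∈ Finset.Ioi j, 0 < ‖w j - w k‖ := fun j k hk =>
    norm_pos_iff.2 (sub_ne_zero.2 (hw _ _ (Finset.mem_Ioi.1 hk).ne))
  have p2 : 0 < ∏ j, ∏ k ∈ Finset.Ioi j, ‖w j - w k‖ :=
    Finset.prod_pos fun j _ => Finset.prod_pos (p1 j)
  have p3 := (p2.trans_le h1).ne'
  have p4 : ∀ j, ∀ k ∈ Finset.Ioi j, ‖c j + s⁻¹ * (w j - c j) - (c k + s⁻¹ * (w k - c k))‖ ≠ 0 :=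
    fun j k hk => right_ne_zero_of_mul (Finset.prod_ne_zero_iff.1
      (Finset.prod_ne_zero_iff.1 p3 j (Finset.mem_univ _)) k hk)
  refine ⟨s⁻¹, by simp [hs], fun j k h e => ?_, ?_⟩
  · rcases lt_or_gt_of_ne h with h | h
    · exact p4 j k (Finset.mem_Ioi.2 h) (by simp [e])
    · exact p4 k j (Finset.mem_Ioi.2 h) (by simp [e])
  · have h2 := log_le_log p2 h1
    rw [log_prod fun j _ => (Finset.prod_pos (p1 j)).ne', log_prod (Finset.prod_ne_zero_iff.1 p3),
      Finset.sum_congr rfl fun j _ => log_prod fun k hk => (p1 j k hk).ne',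
      Finset.sum_congr rfl fun j hj => log_prod (Finset.prod_ne_zero_iff.1
        (Finset.prod_ne_zero_iff.1 p3 j hj)),
      Finset.sum_congr rfl fun j _ => Finset.sum_congr rfl fun k hk =>
        log_mul (inv_pos.2 ht).ne' (p4 j k hk)] at h2
    simp only [Finset.sum_add_distrib, card2, log_inv] at h2
    unfold S
    linarith

lemma prod_eq {n : ℕ} {a : ℝ} (w : Fin n → ℂ) (hw : ∀ j k, j ≠ k → w j ≠ w k) :
    ∏ j, ∏ k ∈ Finset.Ioi j, ‖w j - w k‖ ^ a = exp (a * S w) := by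
  simp only [S, Finset.mul_sum, exp_sum]
  refine Finset.prod_congr rfl fun j _ => Finset.prod_congr rfl fun k hk => ?_
  rw [rpow_def_of_pos (norm_pos_iff.2 (sub_ne_zero.2 (hw _ _ (Finset.mem_Ioi.1 hk).ne))), mul_comm]

lemma prod_le {n : ℕ} {a B : ℝ} (ha : a ≠ 0) (w : Fin n → ℂ)
    (h : (∀ j k, j ≠ k → w j ≠ w k) → a * S w ≤ B) :
    ∏ j, ∏ k ∈ Finset.Ioi j, ‖w j - w k‖ ^ a ≤ exp B := by
  by_cases hw : ∀ j k, j ≠ k → w j ≠ w k
  · rw [prod_eq w hw]; exact exp_le_exp.2 (h hw)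
  · push Not at hw
    obtain ⟨j, k, h, e⟩ := hw
    refine le_trans (le_of_eq ?_) (exp_pos B).le
    rcases lt_or_gt_of_ne h with h | h
    · exact Finset.prod_eq_zero (Finset.mem_univ j)
        (Finset.prod_eq_zero (Finset.mem_Ioi.2 h) (by simp [e, ha]))
    · exact Finset.prod_eq_zero (Finset.mem_univ k)
        (Finset.prod_eq_zero (Finset.mem_Ioi.2 h) (by simp [e, ha]))

lemma key {K : Set ℂ} (hK : IsCompact K) (hne : K.Nonempty) {M : ℝ} (hM0 : 0 ≤ M) {n : ℕ}
    (hn : 2 ≤ n) (hM : ∀ a ∈ nbhd K (1 / n), ∀ b ∈ nbhd K (1 / n), log ‖a - b‖ ≤ M) :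
    1 ≤ diam' n (nbhd K (1 / n)) / cap (nbhd K (1 / n)) ∧
      diam' n (nbhd K (1 / n)) / cap (nbhd K (1 / n)) ≤
        exp ((M + 2 * log n) / (n - 1) - log (1 - 1 / n)) := by
  set E := nbhd K (1 / n) with hE
  have hn2 : (2 : ℝ) ≤ n := by exact_mod_cast hn
  have hn1 : (0 : ℝ) < n - 1 := by linarith
  have hn0 : (0 : ℝ) < n := by linarith
  have hEm : MeasurableSet E := (isClosed_le (continuous_infDist_pt K) continuous_const).measurableSet
  have ha : (2 / ((n : ℝ) * (n - 1))) ≠ 0 := by positivity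
  have hmem : ∀ c ∈ K, ∀ z, ‖z - c‖ ≤ 1 / n → z ∈ E := fun c hc z hz =>
    (infDist_le_dist_of_mem hc).trans (by rwa [dist_eq_norm])
  have hbd : ∀ x ∈ {x | ∃ w : Fin n → ℂ, (∀ j, w j ∈ E) ∧
      x = ∏ j, ∏ k ∈ Finset.Ioi j, ‖w j - w k‖ ^ (2 / ((n : ℝ) * (n - 1)))}, x ≤ exp M := by
    rintro _ ⟨w, hw, rfl⟩
    refine prod_le ha w fun _ => ?_
    have : S w ≤ n * (n - 1) / 2 * M := by
      rw [← card2]
      exact Finset.sum_le_sum fun j _ => Finset.sum_le_sum fun k _ => hM _ (hw j) _ (hw k)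
    refine (mul_le_mul_of_nonneg_left this (by positivity)).trans (le_of_eq ?_)
    field_simp
  have c1 : ∀ μ : Measure ℂ, IsProbabilityMeasure μ → μ Eᶜ = 0 →
      energy μ = ⊥ ∨ ∃ e : ℝ, energy μ = e ∧ exp e ≤ diam' n E := by
    intro μ _ hμ
    by_cases h : ∫⁻ p, negLog p ∂μ.prod μ = ⊤
    · left; simp [energy, h]
    obtain ⟨e1, e2, e3⟩ := energy_eq hμ hM h
    obtain ⟨w, hw, hi, hle⟩ := lower hμ e1 e2 n
    refine Or.inr ⟨_, e3, le_trans ?_ (le_csSup ⟨_, hbd⟩ ⟨w, hw, rfl⟩)⟩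
    rw [prod_eq w hi, exp_le_exp]
    refine le_trans (le_of_eq ?_) (mul_le_mul_of_nonneg_left hle (by positivity))
    field_simp
  obtain ⟨c0, hc0⟩ := hne
  obtain ⟨μ0, m1, m2, m3⟩ := smear hEm hM0 hM one_pos (fun _ => c0)
    (fun j k h => absurd (Subsingleton.elim j k) h) (r := 1 / n) (by positivity)
    fun _ => hmem c0 hc0
  have hδ : 0 < diam' n E := by
    rcases c1 μ0 m1 m2 with h | ⟨e, -, h⟩
    · exact absurd (le_bot_iff.1 (h ▸ m3)) (EReal.coe_ne_bot _)
    · exact (exp_pos e).trans_le h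
  set s := ⨆ (μ : Measure ℂ) (_ : IsProbabilityMeasure μ) (_ : μ Eᶜ = 0), energy μ with hs
  have hle : ∀ μ : Measure ℂ, IsProbabilityMeasure μ → μ Eᶜ = 0 → energy μ ≤ s :=
    fun μ h1 h2 => le_iSup₂_of_le μ h1 (le_iSup_of_le h2 le_rfl)
  have hup : s ≤ (log (diam' n E) : ℝ) := by
    refine iSup₂_le fun μ h1 => iSup_le fun h2 => ?_
    rcases c1 μ h1 h2 with h | ⟨e, h, h'⟩
    · simp [h]
    · rw [h, EReal.coe_le_coe_iff]; exact (le_log_iff_exp_le hδ).2 h'
  obtain ⟨σ, hσ⟩ : ∃ σ : ℝ, s = σ := by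
    refine ⟨s.toReal, (EReal.coe_toReal (ne_top_of_le_ne_top (EReal.coe_ne_top _) hup) ?_).symm⟩
    exact ne_bot_of_le_ne_bot (EReal.coe_ne_bot _) (m3.trans (hle μ0 m1 m2))
  have hcap : cap E = exp σ := by
    rw [cap, ← hs, hσ, EReal.exp_coe, ENNReal.toReal_ofReal (exp_pos _).le]
  rw [hσ, EReal.coe_le_coe_iff] at hup
  have hσM : σ ≤ M := hup.trans ((log_le_iff_le_exp hδ).2 (Real.sSup_le hbd (exp_pos _).le))
  rw [hcap, one_le_div (exp_pos _), div_le_iff₀ (exp_pos _), ← exp_add]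
  refine ⟨(le_log_iff_exp_le hδ).1 hup, Real.sSup_le ?_ (exp_pos _).le⟩
  rintro _ ⟨w, hw, rfl⟩
  refine prod_le ha w fun hi => ?_
  choose c hc hcw using fun j => hK.exists_infDist_eq_dist ⟨c0, hc0⟩ (w j)
  have ht : (0 : ℝ) < 1 - 1 / n := by rw [sub_pos, div_lt_one hn0]; linarith
  obtain ⟨l, hl, hi', hS⟩ := bern c w hi ht (by have : (0 : ℝ) < 1 / n := by positivity
                                                linarith)
  obtain ⟨μ, k1, k2, k3⟩ := smear hEm hM0 hM (by omega : 0 < n) _ hi' (r := 1 / n ^ 2)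
    (by positivity) fun j z hz => hmem _ (hc j) z (by
      have h1 : ‖w j - c j‖ ≤ 1 / n := by rw [← dist_eq_norm, ← hcw]; exact hw j
      have h2 : z - c j = (z - (c j + l * (w j - c j))) + l * (w j - c j) := by ring
      rw [h2]
      refine (norm_add_le _ _).trans ?_
      rw [norm_mul, hl]
      have h3 := mul_le_mul_of_nonneg_left h1 ht.le
      have h4 : (1 - 1 / (n : ℝ)) * (1 / n) = 1 / n - 1 / n ^ 2 := by field_simp
      linarith)
  have k4 := k3.trans (hle μ k1 k2)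
  rw [hσ, EReal.coe_le_coe_iff, div_le_iff₀ (by positivity), one_div, log_inv, log_pow] at k4
  rw [div_mul_eq_mul_div, div_le_iff₀ (by positivity)]
  have e : ((M + 2 * log n) / (n - 1) - log (1 - 1 / n) + σ) * (n * (n - 1)) =
      n * (M + 2 * log n) - n * (n - 1) * log (1 - 1 / n) + σ * (n * (n - 1)) := by
    field_simp
  rw [e]
  push_cast at k4
  nlinarith [mul_le_mul_of_nonneg_left hσM hn0.le]

theorem result (K : Set ℂ) (hK : IsCompact K) (hne : K.Nonempty) :
    Tendsto (fun n : ℕ => diam' n (nbhd K (1 / n)) / cap (nbhd K (1 / n))) atTop (𝓝 1) := by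
  obtain ⟨R, hR0, hR⟩ := hK.isBounded.exists_pos_norm_le
  have hM : ∀ n : ℕ, 2 ≤ n → ∀ a ∈ nbhd K (1 / n), ∀ b ∈ nbhd K (1 / n),
      log ‖a - b‖ ≤ 2 * R + 2 := by
    intro n hn
    have h1 : (1 : ℝ) / n ≤ 1 := by
      rw [div_le_one (by positivity)]; exact_mod_cast (by omega : 1 ≤ n)
    have h : ∀ a ∈ nbhd K (1 / n), ‖a‖ ≤ R + 1 := fun a ha => by
      obtain ⟨c, hc, e⟩ := hK.exists_infDist_eq_dist hne a
      have h2 : infDist a K ≤ 1 / n := ha
      have h3 := norm_sub_norm_le a c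
      rw [e, dist_eq_norm] at h2
      linarith [hR c hc]
    intro a ha b hb
    linarith [log_le_self (norm_nonneg (a - b)), norm_sub_le a b, h a ha, h b hb]
  have t1 : Tendsto (fun x : ℝ => exp ((2 * R + 2 + 2 * log x) / (x - 1) - log (1 - 1 / x)))
      atTop (𝓝 (exp ((2 * R + 2) * 0 + 2 * 0 - log (1 - 0)))) := by
    refine (continuous_exp.tendsto _).comp (Tendsto.sub ?_ (Tendsto.log ?_ (by simp)))
    · have a1 := (tendsto_pow_log_div_mul_add_atTop 1 (-1) 0 one_ne_zero).const_mul (2 * R + 2)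
      have a2 := (tendsto_pow_log_div_mul_add_atTop 1 (-1) 1 one_ne_zero).const_mul 2
      refine (a1.add a2).congr fun x => ?_
      simp only [pow_zero, pow_one, one_mul, ← sub_eq_add_neg]
      ring
    · exact tendsto_const_nhds.sub (tendsto_const_nhds.div_atTop tendsto_id)
  simp only [mul_zero, add_zero, sub_zero, log_one, exp_zero] at t1
  refine tendsto_of_tendsto_of_tendsto_of_le_of_le' tendsto_const_nhds
    (t1.comp tendsto_natCast_atTop_atTop) ?_ ?_
  · filter_upwards [eventually_ge_atTop 2] with n hn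
    exact (key hK hne (by positivity) hn (hM n hn)).1
  · filter_upwards [eventually_ge_atTop 2] with n hn
    exact (key hK hne (by positivity) hn (hM n hn)).2

end Pool.Agent.Results.MP_d057eb_an.Ratio
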